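import Pool.Agent.X183.NZ.Fin

/-!
# Zimmer's conjecture for special lattices of `SL_n(ℍ)` and `SL_n(ℂ)` and manifolds with nonzero Euler
characteristic

Let `M` be a closed connected manifold with `χ(M) ≠ 0`, say `2 ^ (k + 1) ∤ χ(M)`. Let `Γ` be a group of
invertible matrices over the Lipschitz quaternions `ℤ⟨i, j, k⟩` or over the Gaussian integers which
contains the elementary matrices. The codimension of the largest parabolic subgroup of `SL_n(ℍ)` is
`4 (n - 1)`, that of `SL_n(ℂ)` is `2 (n - 1)`. We show that every `C^∞` action of `Γ` on `M` is trivial
on the group generated by the elementary matrices (and so has finite image) if `dim M` is less than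
`4 (n - 1) - 4 ^ (k + 1)`, or less than `2 (n - 1) - 2 ^ (k + 1)`, and `n` is large with respect to `k`.

Proof. By Whitehead's lemma, `Γ` contains the diagonal matrices with entries `u`, `u⁻¹` at two places,
`u` a unit; they generate a finite `2`-group `D`. An invariant Morse function
(`Pool.Agent.X183.IM`, after helper84's theorem for cyclic groups) has `χ(M)` critical points, counted
with the signs `(-1) ^ index`, which are invariant; so `D` has an orbit with at most `2 ^ k` points. The
indices `1, ..., n` fall into at most `4 ^ k` (or `2 ^ k`) classes such that the diagonal matrices with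
two places in the same class fix a point `x` of the orbit. The stabiliser of `x` acts linearly on the
tangent space and faithfully modulo the kernel of the action. Counting dimensions one finds a diagonal
matrix of signs, not `±1`, which acts trivially; so all elementary matrices with even entries act
trivially. Hence the groups of Heisenberg type formed by the entries in one row and one column act
through finite `2`-groups, which again have small orbits; from triples of indices with the same action
on such an orbit one obtains a group of Heisenberg type with the same centre which fixes a point. Its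
representations in which the centre acts nontrivially have dimension at least `2 ^ T`. So the centre acts
trivially.
-/

open scoped Manifold ContDiff Quaternion

namespace Pool.Agent.Results.MP_d483fb_an.NonzeroEulerCharacteristic

open Pool.Agent.X183.NZ

/-- Let `n ≥ 2 * 4 ^ k + 9 * k + 29`, or `n ≥ 2 * 4 ^ k + 5` and `d < 2 ^ ⌊(n - 2 - 2 * 4 ^ k) / 3⌋`
(this is `Large k n d`). Let `M` be a connected manifold of dimension `d` and `α` an action on `M` of a
group `Γ` of invertible matrices which contains all elementary matrices, with entries

* in the Lipschitz quaternions, where `d < 4 (n - 1 - 4 ^ k)`, or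
* in the Gaussian integers, where `d < 2 (n - 1 - 2 ^ k)`.

Assume that `α` is `C^1` and every finite `2`-subgroup of `α(Γ)` has an orbit with at most `2 ^ k`
points, or `α` is `C^∞` and `M` is closed and its Euler characteristic is not divisible by `2 ^ (k + 1)`
(this is `Adm k d α`). Then the group `EG` generated by the elementary matrices acts trivially, and
`α(Γ)` is finite if `EG` has finite index in `Γ`. -/
theorem result (k n d : ℕ) (hn : Large k n d) (M : Type) [TopologicalSpace M] [T2Space M]
    [ConnectedSpace M] [ChartedSpace (EuclideanSpace ℝ (Fin d)) M] :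
    (d < 4 * (n - 1 - 4 ^ k) →
      ∀ (Γ : Subgroup (Matrix (Fin n) (Fin n) ℍ[ℤ])ˣ) (hΓ : EG n ℍ[ℤ] ≤ Γ)
        (α : Γ →* Equiv.Perm M), Adm k d α →
        (∀ g (hg : g ∈ EG n ℍ[ℤ]), α ⟨g, hΓ hg⟩ = 1) ∧
          ((EG n ℍ[ℤ]).relIndex Γ ≠ 0 → (Set.range α).Finite)) ∧
    (d < 2 * (n - 1 - 2 ^ k) →
      ∀ (Γ : Subgroup (Matrix (Fin n) (Fin n) GaussianInt)ˣ) (hΓ : EG n GaussianInt ≤ Γ)
        (α : Γ →* Equiv.Perm M), Adm k d α →
        (∀ g (hg : g ∈ EG n GaussianInt), α ⟨g, hΓ hg⟩ = 1) ∧
          ((EG n GaussianInt).relIndex Γ ≠ 0 → (Set.range α).Finite)) :=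
  ⟨fun hd _ hΓ _ hα => final_quat hn hd hΓ hα, fun hd _ hΓ _ hα => final_gauss hn hd hΓ hα⟩

end Pool.Agent.Results.MP_d483fb_an.NonzeroEulerCharacteristic
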