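import Pool.Agent.X183.ZM.Fin

/-!
# Zimmer's conjecture for `GL_n` over the Lipschitz quaternions and odd Euler characteristic

`Γ` is a subgroup of `GL_n(ℤ⟨i, j, k⟩)`, a lattice in `SL_n(ℍ)`, which contains the elementary and
the diagonal matrices. Every `C^∞` action of `Γ` on a closed connected manifold with odd Euler
characteristic and of dimension less than `4 (n - 1)` (the codimension of the largest parabolic
subgroup) is trivial on the elementary matrices, and has finite image.

Proof. The diagonal matrices with unit entries form a finite `2`-group. An invariant Morse function
(`Pool.Agent.X183.IM`, after helper84's theorem for cyclic groups) has an odd number of critical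
points, so one of them is fixed. The group acts linearly on the tangent space, and faithfully modulo the
kernel of the action; `4 (n - 1)` is the smallest dimension in which only `±1` can be killed. So a
diagonal matrix with both signs acts trivially, hence all elementary matrices with even entries act
trivially. Therefore the groups of Heisenberg type formed by the entries in one row and one column act
through finite `2`-groups, which again have fixed points, and whose representations in which the centre
acts nontrivially have dimension at least `2 ^ (n - 2)`. So the centre acts trivially.
-/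

open scoped Manifold ContDiff Quaternion

namespace Pool.Agent.Results.MP_d483fb_an.QuaternionicLattices

open Pool.Agent.X183.ZM

/-- Let `n ≥ 3`, `d < 4 (n - 1)` and `d < 2 ^ (n - 2)` (for `n ≥ 7` the second condition follows from
the first), let `Γ` be a subgroup of `GL_n(ℤ⟨i, j, k⟩)` which contains the elementary matrices and
the diagonal matrices with unit entries, let `M` be a connected manifold of dimension `d` and `α` an
action of `Γ` on `M` which is `C^1` and such that all finite `2`-subgroups of `α(Γ)` have fixed points,
or which is `C^∞` and such that `M` is closed and all Morse functions on `M` have an odd number of critical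
points (odd Euler characteristic). Then the elementary matrices act trivially, and the image of `α` is
finite if the elementary and diagonal matrices generate a subgroup of finite index in `Γ`. -/
theorem result (n d : ℕ) (hn : 3 ≤ n) (hd : d < 4 * (n - 1)) (hd' : 7 ≤ n ∨ d < 2 ^ (n - 2))
    (Γ : Subgroup (Matrix (Fin n) (Fin n) ℍ[ℤ])ˣ) (hΓ : GE n ℍ[ℤ] ≤ Γ)
    (M : Type) [TopologicalSpace M] [T2Space M] [ConnectedSpace M]
    [ChartedSpace (EuclideanSpace ℝ (Fin d)) M] (α : Γ →* Equiv.Perm M) (hα : Admissible d α) :
    (∀ (i j : Fin n) (h : i ≠ j) (x : ℍ[ℤ]) (hx : El i j h x ∈ Γ), α ⟨El i j h x, hx⟩ = 1) ∧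
      ((GE n ℍ[ℤ]).relIndex Γ ≠ 0 → (Set.range α).Finite) := by
  refine final_ring quat_four big_quat hn hd ?_ hΓ hα
  rcases hd' with h7 | h
  · have key : ∀ k : ℕ, 4 * (k + 6) ≤ 2 ^ (k + 5) := by
      intro k
      induction k with
      | zero => norm_num
      | succ k ih =>
        have : 2 ^ (k + 1 + 5) = 2 * 2 ^ (k + 5) := by ring
        rw [this]
        omega
    obtain ⟨k, rfl⟩ : ∃ k, n = k + 7 := ⟨n - 7, by omega⟩
    have := key k
    have e1 : k + 7 - 1 = k + 6 := by omega
    have e2 : k + 7 - 2 = k + 5 := by omega
    rw [e1] at hd
    rw [e2]
    omega
  · exact h

end Pool.Agent.Results.MP_d483fb_an.QuaternionicLattices
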