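import Pool.Agent.X183.PZ.Steps

/-!
# Zimmer's conjecture for `SL_n` over rings of integers with `p`-th roots of unity

Let `p` be an odd prime and `R` a commutative ring with a unit `ζ` such that `1 + ζ + ... + ζ ^ (p - 1) = 0`,
for instance the ring of integers of a number field `K` which contains the `p`-th roots of unity. Then `K`
is totally imaginary and `SL_n(R)` is a lattice in `G = SL_n(ℂ)^r`; the bound of Zimmer's conjecture is
`2 (n - 1)` (`n ≥ 3`, `n ≠ 4`). We show: if `M` is closed and connected, `dim M < 2 (n - 1)`, and `p` does
not divide `χ(M)` nor `n`, then every `C^∞` action of the group generated by the elementary matrices (which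
is `SL_n(R)` by Bass, Milnor and Serre) on `M` is trivial. This is sharp: `SL_n(R)` acts on `ℂP^(n-1)`. If
`p ^ (k + 1)` does not divide `χ(M)`, the same is true for `dim M < 2 (n - 1 - k)`.

Proof. By Whitehead's lemma the group contains the diagonal matrices whose entries are powers of `ζ` and
whose determinant is `1`; they form an elementary abelian `p`-group `D` of rank `n - 1`. An invariant Morse
function (`Pool.Agent.X183.IM`, after helper84's theorem for cyclic groups) has `χ(M)` critical points,
counted with invariant signs; so `D` has an orbit with at most `p ^ k` points. The stabiliser of such a point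
acts linearly on the tangent space and faithfully modulo the kernel of the action; the kernel of a real
representation of dimension `d` of an elementary abelian `p`-group of rank `r` has rank at least `r - d / 2`.
So a diagonal matrix which is not scalar acts trivially. It follows that the elementary matrices with
entries in `p R` act trivially. Now the integral entries in one row give an action of an elementary abelian
`p`-group of rank `n - 1`. The same argument shows that this action has a nontrivial kernel, and
commutators with other elementary matrices give that all elementary matrices act trivially.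
-/

open scoped Manifold ContDiff

namespace Pool.Agent.Results.MP_d483fb_an.RootsOfUnity

open Pool.Agent.X183.PZ Pool.Agent.X183.NZ Pool.Agent.X183.ZM

/-- Let `p` be an odd prime, `R` a commutative ring with a unit `ζ` such that
`1 + ζ + ... + ζ ^ (p - 1) = 0`, `n ≥ 3`, `Γ` a group of invertible `n × n` matrices over `R` which contains
the group `EG` generated by the elementary matrices, `M` a connected manifold of dimension `d` and `α` an
action of `Γ` on `M` which is `C^1` and such that every finite `p`-subgroup of `α(Γ)` has an orbit with at
most `p ^ k` points, or which is `C^∞` and such that `M` is closed and its Euler characteristic is not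
divisible by `p ^ (k + 1)` (`AdmP`). Assume that `d < 2 (n - 2 - k)`, or that `d < 2 (n - 1 - k)` and `p`
does not divide `n` or `Γ` contains all diagonal matrices with unit entries. Then `EG` acts trivially,
and `α(Γ)` is finite if `EG` has finite index in `Γ`. -/
theorem result (p : ℕ) (hp : p.Prime) (hp2 : p ≠ 2) (R : Type) [CommRing R] (ζ : Rˣ)
    (hζ : ∑ j ∈ Finset.range p, (ζ : R) ^ j = 0) (k n d : ℕ) (hn : 3 ≤ n)
    (Γ : Subgroup (Matrix (Fin n) (Fin n) R)ˣ) (hΓ : EG n R ≤ Γ)
    (M : Type) [TopologicalSpace M] [T2Space M] [ConnectedSpace M]
    [ChartedSpace (EuclideanSpace ℝ (Fin d)) M] (α : Γ →* Equiv.Perm M) (hα : AdmP p k d α)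
    (hd : (d < 2 * (n - 1 - k) ∧ (¬ p ∣ n ∨ ∀ u : Fin n → Rˣ, Dg u ∈ Γ)) ∨ d < 2 * (n - 2 - k)) :
    (∀ g (hg : g ∈ EG n R), α ⟨g, hΓ hg⟩ = 1) ∧
      ((EG n R).relIndex Γ ≠ 0 → (Set.range α).Finite) := by
  haveI := Fact.mk hp
  exact final hp2 hζ hn hΓ hα hd

end Pool.Agent.Results.MP_d483fb_an.RootsOfUnity
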