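import Pool.Agent.X183.PP.Two

/-!
# Zimmer's conjecture for `SL_n` over rings which contain `2 ^ (b + 1)`-th roots of unity

Let `b ≥ 1` and let `R` be a commutative ring with a unit `ζ` such that `ζ ^ (2 ^ b) = -1`, for instance the
ring of integers of a number field `K` which contains the roots of unity of order `2 ^ (b + 1)` (`b = 1`:
`K` contains `i`). Then `K` is totally imaginary and `SL_n(R)` is a lattice in `G = SL_n(ℂ)^r`; the bound of
Zimmer's conjecture is `2 (n - 1)` (`n ≠ 4`). We show: let `n ≥ 4` be odd, `M` closed and connected,
`2 ^ (m + 1)` not a divisor of `χ(M)`, `dim M < 2 (n - 1 - ⌊m / b⌋)` and `dim M < ⌊n ^ 2 / 4⌋ - m`. Then every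
`C^∞` action of the group generated by the elementary matrices (which is `SL_n(R)` by Bass, Milnor and
Serre) on `M` is trivial. If `m < b` and `n` is large, we have the full range `dim M < 2 (n - 1)`.

Proof. The group contains the diagonal matrices whose entries are powers of `ζ` and whose determinant is
`1`; they form an abelian `2`-group `A` isomorphic to `(ℤ/2^(b+1))^(n-1)`. An invariant Morse function
(`Pool.Agent.X183.IM`, after helper84's theorem for cyclic groups) has `χ(M)` critical points, counted
with invariant signs; so `A` has an orbit with at most `2 ^ m` points. Let `S` be the stabiliser of such a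
point, and let `T = (2 S)[2]` be the group of the squares of order `2` or `1` in `S`. It has rank at least
`n - 1 - ⌊m / b⌋`, as `|S| ≤ |S[2]| |2 S|` and `|2 S| ≤ |T| ^ b`. The kernel of a real representation of
dimension `d` of `S` has corank at most `d / 2` in `T`, as the spaces on which `T` acts by a nontrivial
character have a complex structure. So a diagonal matrix of signs which is not `±1` acts trivially. It
follows that the elementary matrices with entries in `2 R` act trivially. Now the integral matrices
`1 + X` with `X` concentrated in the upper right block of size `⌊n / 2⌋ × (n - ⌊n / 2⌋)` act through an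
elementary abelian `2`-group of rank `⌊n ^ 2 / 4⌋`. The same argument shows that this action has a
nontrivial kernel, and commutators with elementary matrices give that all elementary matrices act
trivially.
-/

open scoped Manifold ContDiff

namespace Pool.Agent.Results.MP_d483fb_an.TwoPowerRoots

open Pool.Agent.X183.PP Pool.Agent.X183.PZ Pool.Agent.X183.NZ Pool.Agent.X183.ZM

/-- Let `b ≥ 1`, `R` a commutative ring with a unit `ζ` such that `ζ ^ (2 ^ b) = -1`, `n ≥ 4` odd, `Γ` a
group of invertible `n × n` matrices over `R` which contains the group `EG` generated by the elementary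
matrices, `M` a connected manifold of dimension `d` and `α` an action of `Γ` on `M` which is `C^1` and such
that every finite `2`-subgroup of `α(Γ)` has an orbit with at most `2 ^ m` points, or which is `C^∞` and
such that `M` is closed and its Euler characteristic is not divisible by `2 ^ (m + 1)` (`AdmP 2 m`). Assume
that `d < 2 (n - 1 - ⌊m / b⌋)` and `d < ⌊n / 2⌋ (n - ⌊n / 2⌋) - m`. Then `EG` acts trivially, and `α(Γ)` is
finite if `EG` has finite index in `Γ`. -/
theorem result (b : ℕ) (hb : 1 ≤ b) (R : Type) [CommRing R] (ζ : Rˣ) (hζ : ζ ^ 2 ^ b = -1)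
    (m n d : ℕ) (hn : 4 ≤ n) (hn2 : ¬ 2 ∣ n) (Γ : Subgroup (Matrix (Fin n) (Fin n) R)ˣ)
    (hΓ : EG n R ≤ Γ) (M : Type) [TopologicalSpace M] [T2Space M] [ConnectedSpace M]
    [ChartedSpace (EuclideanSpace ℝ (Fin d)) M] (α : Γ →* Equiv.Perm M) (hα : AdmP 2 m d α)
    (hd : d < 2 * (n - 1 - m / b)) (hd' : d < n / 2 * (n - n / 2) - m) :
    (∀ g (hg : g ∈ EG n R), α ⟨g, hΓ hg⟩ = 1) ∧
      ((EG n R).relIndex Γ ≠ 0 → (Set.range α).Finite) :=
  final_two hb hζ hn hn2 hΓ hα hd hd'

end Pool.Agent.Results.MP_d483fb_an.TwoPowerRoots
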